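import Mathlib
import Pool.Agent.T2H66.GroupLaw

/-! A word `w` in two letters makes every free nilpotent group `F_n/γ_k(F_n)` (`n ≥ 2`, `k ≥ 1`)
into a group by `x * y = w(x, y)` only if `w = ab` or `w = ba`. -/

set_option autoImplicit false

namespace Pool.Agent.Results.MP_c4ae4c_al.OnlyTheTwoProducts

open FreeGroup hiding map_one map_mul map_inv

/-- `w(x, y)`: substitute `x` for the first and `y` for the second letter of `w`. -/
def evalWord (w : FreeGroup (Fin 2)) {G : Type} [Group G] (x y : G) : G :=
  FreeGroup.lift ![x, y] w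

/-- The binary operation `op` makes the set `X` into a group. -/
def IsGroupOperation {X : Type} (op : X → X → X) : Prop :=
  (∀ x y z, op (op x y) z = op x (op y z)) ∧
    ∃ e, (∀ x, op e x = x ∧ op x e = x) ∧ ∀ x, ∃ y, op x y = e ∧ op y x = e

/-- `γ_k(F_n)`, the `k`-th term of the lower central series of the free group of rank `n`,
with `γ_1(F_n) = F_n` (Mathlib counts from `0`). -/
abbrev gam (n k : ℕ) : Subgroup (FreeGroup (Fin n)) :=
  (⊤ : Subgroup (FreeGroup (Fin n))).lowerCentralSeries (k - 1)

/-- Property (N). -/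
def PropertyN (w : FreeGroup (Fin 2)) : Prop :=
  ∀ n : ℕ, 2 ≤ n → ∀ k : ℕ, 1 ≤ k →
    IsGroupOperation (fun x y : FreeGroup (Fin n) ⧸ gam n k => evalWord w x y)

/-- exponent sums -/
def es (s t : ℤ) : FreeGroup (Fin 2) →* Multiplicative ℤ :=
  FreeGroup.lift ![Multiplicative.ofAdd s, Multiplicative.ofAdd t]

theorem evalWord_map {G H : Type} [Group G] [Group H] (f : G →* H) (w : FreeGroup (Fin 2))
    (x y : G) : f (evalWord w x y) = evalWord w (f x) (f y) := by
  unfold evalWord
  have : f.comp (FreeGroup.lift ![x, y]) = FreeGroup.lift ![f x, f y] := by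
    ext i
    fin_cases i <;> simp
  rw [← this]
  rfl

theorem evalWord_zpow {G : Type} [Group G] (w : FreeGroup (Fin 2)) (x : G) (s t : ℤ) :
    evalWord w (x ^ s) (x ^ t) = x ^ (Multiplicative.toAdd (es s t w)) := by
  unfold evalWord es
  have : (zpowersHom G x).comp (FreeGroup.lift ![Multiplicative.ofAdd s, Multiplicative.ofAdd t])
      = FreeGroup.lift ![x ^ s, x ^ t] := by
    ext i
    fin_cases i <;> simp [zpowersHom_apply]
  rw [← this]
  rfl

theorem es_add (w : FreeGroup (Fin 2)) (s t : ℤ) :
    Multiplicative.toAdd (es s t w) =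
      s * Multiplicative.toAdd (es 1 0 w) + t * Multiplicative.toAdd (es 0 1 w) := by
  have : es s t = (es 1 0) ^ s * (es 0 1) ^ t := by
    ext i
    fin_cases i <;> simp [es]
  rw [this]
  simp [toAdd_zpow]

/-- The main step: associativity and a neutral element on `F_n/γ_k` for arbitrarily large `k`
already force `w = ab` or `w = ba`. -/
theorem main (w : FreeGroup (Fin 2)) (n : ℕ) (hn : 2 ≤ n)
    (hmon : ∀ K : ℕ, ∃ k, K ≤ k ∧
      (∀ x y z : FreeGroup (Fin n) ⧸ gam n k,
        evalWord w (evalWord w x y) z = evalWord w x (evalWord w y z)) ∧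
      ∃ e : FreeGroup (Fin n) ⧸ gam n k, ∀ x, evalWord w e x = x ∧ evalWord w x e = x) :
    w = of 0 * of 1 ∨ w = of 1 * of 0 := by
  let i0 : Fin n := ⟨0, by omega⟩
  let i1 : Fin n := ⟨1, by omega⟩
  have hi : i0 ≠ i1 := by
    intro h
    have := congrArg Fin.val h
    simp [i0, i1] at this
  -- exponent sums
  have hexp : Multiplicative.toAdd (es 1 0 w) = 1 ∧ Multiplicative.toAdd (es 0 1 w) = 1 := by
    obtain ⟨k, hk, -, e, he⟩ := hmon 2
    let ψ0 : FreeGroup (Fin n) →* Multiplicative ℤ := FreeGroup.lift (fun _ => Multiplicative.ofAdd 1)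
    have hψ0 : gam n k ≤ ψ0.ker := by
      have h1 : gam n k ≤ commutator (FreeGroup (Fin n)) := by
        have h2 : (⊤ : Subgroup (FreeGroup (Fin n))).lowerCentralSeries (k - 1) ≤
            (⊤ : Subgroup (FreeGroup (Fin n))).lowerCentralSeries 1 :=
          Subgroup.lowerCentralSeries_antitone _ (by omega)
        refine h2.trans ?_
        rw [Subgroup.top_lowerCentralSeries_one]
      exact h1.trans (Abelianization.commutator_subset_ker ψ0)
    let ψ : FreeGroup (Fin n) ⧸ gam n k →* Multiplicative ℤ := QuotientGroup.lift _ ψ0 hψ0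
    let g : FreeGroup (Fin n) ⧸ gam n k := QuotientGroup.mk (of i0)
    have hg : ψ g = Multiplicative.ofAdd 1 := by
      simp [ψ, g, ψ0]
    set α := Multiplicative.toAdd (es 1 0 w) with hα
    set β := Multiplicative.toAdd (es 0 1 w) with hβ
    have key : ∀ x y : FreeGroup (Fin n) ⧸ gam n k,
        Multiplicative.toAdd (ψ (evalWord w x y)) =
          Multiplicative.toAdd (ψ x) * α + Multiplicative.toAdd (ψ y) * β := by
      intro x y
      rw [evalWord_map, hα, hβ, ← es_add]
      rfl
    have k1 := key e g
    have k2 := key e 1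
    have k3 := key g e
    have k4 := key 1 e
    rw [(he g).1, hg] at k1
    rw [(he 1).1, map_one] at k2
    rw [(he g).2, hg] at k3
    rw [(he 1).2, map_one] at k4
    simp only [toAdd_ofAdd, toAdd_one, zero_mul, one_mul, add_zero, zero_add] at k1 k2 k3 k4
    constructor <;> omega
  obtain ⟨hα, hβ⟩ := hexp
  have er : ∀ {G : Type} [Group G] (x : G), evalWord w x 1 = x := by
    intro G _ x
    have := evalWord_zpow w x 1 0
    rw [es_add, hα, hβ] at this
    simpa using this
  have el : ∀ {G : Type} [Group G] (x : G), evalWord w 1 x = x := by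
    intro G _ x
    have := evalWord_zpow w x 0 1
    rw [es_add, hα, hβ] at this
    simpa using this
  have einv : ∀ {G : Type} [Group G] (x : G), evalWord w x x⁻¹ = 1 := by
    intro G _ x
    have := evalWord_zpow w x 1 (-1)
    rw [es_add, hα, hβ] at this
    simpa using this
  have einv' : ∀ {G : Type} [Group G] (x : G), evalWord w x⁻¹ x = 1 := by
    intro G _ x
    have := evalWord_zpow w x (-1) 1
    rw [es_add, hα, hβ] at this
    simpa using this
  -- the identities in the free group
  have hfree : ∀ u v : FreeGroup (Fin n),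
      evalWord w (evalWord w u v) v⁻¹ = u ∧ evalWord w u⁻¹ (evalWord w u v) = v := by
    intro u v
    have hk : ∀ m : ℕ,
        evalWord w (evalWord w u v) v⁻¹ * u⁻¹ ∈
          (⊤ : Subgroup (FreeGroup (Fin n))).lowerCentralSeries m ∧
        evalWord w u⁻¹ (evalWord w u v) * v⁻¹ ∈
          (⊤ : Subgroup (FreeGroup (Fin n))).lowerCentralSeries m := by
      intro m
      obtain ⟨k, hk, hassoc, -⟩ := hmon (m + 1)
      have hle : gam n k ≤ (⊤ : Subgroup (FreeGroup (Fin n))).lowerCentralSeries m :=
        Subgroup.lowerCentralSeries_antitone _ (by omega)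
      let π : FreeGroup (Fin n) →* FreeGroup (Fin n) ⧸ gam n k := QuotientGroup.mk' _
      constructor
      · apply hle
        rw [← QuotientGroup.eq_one_iff]
        change π (evalWord w (evalWord w u v) v⁻¹ * u⁻¹) = 1
        rw [map_mul, map_inv, evalWord_map, evalWord_map, hassoc, map_inv, einv, er,
          mul_inv_cancel]
      · apply hle
        rw [← QuotientGroup.eq_one_iff]
        change π (evalWord w u⁻¹ (evalWord w u v) * v⁻¹) = 1
        rw [map_mul, map_inv, evalWord_map, evalWord_map, ← hassoc, map_inv, einv', el,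
          mul_inv_cancel]
    constructor
    · exact mul_inv_eq_one.1 (Helper189.FreeRep.lcs_bot fun m => (hk m).1)
    · exact mul_inv_eq_one.1 (Helper189.FreeRep.lcs_bot fun m => (hk m).2)
  -- transport to rank two
  let ι : FreeGroup (Fin 2) →* FreeGroup (Fin n) := FreeGroup.lift ![of i0, of i1]
  have hι : Function.Injective ι := by
    have : ι = FreeGroup.map ![i0, i1] := by
      ext i
      fin_cases i <;> simp [ι]
    rw [this]
    apply FreeGroup.map_injective
    intro a b hab
    fin_cases a <;> fin_cases b <;> first | rfl | (exfalso; simp at hab; first | exact hi hab | exact hi hab.symm)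
  have h2 : ∀ u v : FreeGroup (Fin 2),
      evalWord w (evalWord w u v) v⁻¹ = u ∧ evalWord w u⁻¹ (evalWord w u v) = v := by
    intro u v
    obtain ⟨q1, q2⟩ := hfree (ι u) (ι v)
    constructor
    · apply hι
      rw [evalWord_map, evalWord_map, map_inv]
      exact q1
    · apply hι
      rw [evalWord_map, evalWord_map, map_inv]
      exact q2
  have ew : evalWord w (of 0 : FreeGroup (Fin 2)) (of 1) = w := by
    unfold evalWord
    have : FreeGroup.lift ![(of 0 : FreeGroup (Fin 2)), of 1] = MonoidHom.id _ := by
      ext i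
      fin_cases i <;> simp
    rw [this]
    rfl
  -- at most one letter of each kind
  have c0 : T2H66.GroupLaw.cnt w.toWord ≤ 1 := by
    apply T2H66.GroupLaw.lemmaA
    have := (h2 (of 0) (of 1)).1
    rw [ew] at this
    exact this
  let σ : FreeGroup (Fin 2) →* FreeGroup (Fin 2) := FreeGroup.map (Equiv.swap 0 1)
  have σ0 : σ (of 0) = of 1 := by simp [σ]
  have σ1 : σ (of 1) = of 0 := by simp [σ]
  have σσ : ∀ u, σ (σ u) = u := by
    intro u
    have : σ.comp σ = MonoidHom.id _ := by
      ext i
      fin_cases i <;> simp [σ]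
    exact DFunLike.congr_fun this u
  have c1 : T2H66.GroupLaw.cnt (σ w).toWord ≤ 1 := by
    apply T2H66.GroupLaw.lemmaA
    have h3 := congrArg σ (h2 (of 0) (of 1)).2
    rw [ew, σ1, evalWord_map, map_inv, σ0] at h3
    have h4 : FreeGroup.lift ![σ w, (of 1)⁻¹] = (FreeGroup.lift ![(of 1)⁻¹, σ w]).comp σ := by
      ext i
      fin_cases i
      · simp [σ0]
      · simp [σ1]
    rw [h4, MonoidHom.comp_apply, σσ]
    exact h3
  have c1' : w.toWord.countP (fun p => decide (p.1 = 1)) ≤ 1 := by
    have h5 : (σ w).toWord = w.toWord.map (fun p => (Equiv.swap 0 1 p.1, p.2)) := by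
      have h6 : σ w = mk (w.toWord.map (fun p => (Equiv.swap 0 1 p.1, p.2))) := by
        conv_lhs => rw [← mk_toWord (x := w)]
        rfl
      rw [h6, toWord_mk]
      apply FreeGroup.IsReduced.reduce_eq
      unfold FreeGroup.IsReduced
      rw [List.isChain_map]
      refine (isReduced_toWord (x := w)).imp ?_
      intro a b hab h7
      exact hab ((Equiv.swap 0 1).injective h7)
    rw [h5] at c1
    unfold T2H66.GroupLaw.cnt at c1
    rw [List.countP_map] at c1
    refine le_trans (le_of_eq ?_) c1
    apply List.countP_congr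
    intro p _
    obtain ⟨i, b⟩ := p
    fin_cases i <;> simp
  -- finish
  have hlen : w.toWord.length ≤ 2 := by
    have : w.toWord.length = T2H66.GroupLaw.cnt w.toWord +
        w.toWord.countP (fun p => decide (p.1 = 1)) := by
      unfold T2H66.GroupLaw.cnt
      induction w.toWord with
      | nil => rfl
      | cons p L ih =>
        rw [List.length_cons, List.countP_cons, List.countP_cons, ih]
        obtain ⟨i, b⟩ := p
        fin_cases i <;> simp <;> omega
    omega
  have hfin : ∀ L : List (Fin 2 × Bool), L.length ≤ 2 →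
      Multiplicative.toAdd (es 1 0 (mk L)) = 1 → Multiplicative.toAdd (es 0 1 (mk L)) = 1 →
      L = [(0, true), (1, true)] ∨ L = [(1, true), (0, true)] := by
    intro L hL
    match L, hL with
    | [], _ => 
      intro h
      exfalso
      revert h
      have : (mk [] : FreeGroup (Fin 2)) = 1 := rfl
      rw [this, map_one]
      simp
    | [(i, b)], _ =>
      fin_cases i <;> cases b <;> simp [es]
    | [(i, b), (j, c)], _ =>
      fin_cases i <;> cases b <;> fin_cases j <;> cases c <;> simp [es]
    | _ :: _ :: _ :: _, h =>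
      exfalso
      simp at h
  rcases hfin w.toWord hlen (by rw [mk_toWord]; exact hα) (by rw [mk_toWord]; exact hβ) with h | h
  · left
    rw [← mk_toWord (x := w), h]
    rfl
  · right
    rw [← mk_toWord (x := w), h]
    rfl

/-- A word `w` in two letters has property (N) exactly when `w = ab` or `w = ba`. -/
theorem result (w : FreeGroup (Fin 2)) :
    PropertyN w ↔ w = of 0 * of 1 ∨ w = of 1 * of 0 := by
  constructor
  · intro h
    refine main w 2 le_rfl fun K => ⟨K + 1, by omega, ?_⟩
    obtain ⟨h1, e, h2, -⟩ := h 2 le_rfl (K + 1) (by omega)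
    exact ⟨h1, e, h2⟩
  · rintro (rfl | rfl)
    · intro n _ k _
      have : ∀ x y : FreeGroup (Fin n) ⧸ gam n k, evalWord (of 0 * of 1) x y = x * y := by
        intro x y
        simp [evalWord]
      simp only [this]
      exact ⟨fun x y z => mul_assoc x y z, 1, fun x => ⟨one_mul x, mul_one x⟩,
        fun x => ⟨x⁻¹, mul_inv_cancel x, inv_mul_cancel x⟩⟩
    · intro n _ k _
      have : ∀ x y : FreeGroup (Fin n) ⧸ gam n k, evalWord (of 1 * of 0) x y = y * x := by
        intro x y
        simp [evalWord]
      simp only [this]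
      exact ⟨fun x y z => (mul_assoc z y x).symm, 1, fun x => ⟨mul_one x, one_mul x⟩,
        fun x => ⟨x⁻¹, inv_mul_cancel x, mul_inv_cancel x⟩⟩

end Pool.Agent.Results.MP_c4ae4c_al.OnlyTheTwoProducts
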